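import Pool.Agent.H320.LC.Asm
import Pool.Agent.H320.LC.LNK
import Pool.Agent.H320.LC.LUK
import Pool.Agent.H320.LC.EUL
import Pool.Agent.H320.LC.PAD

/-!
# The Singer conjecture for Poincaré duality groups from finitely many finite coverings

Let `Γ` be an infinite Poincaré duality group of dimension `q` and of type FL, for instance the
fundamental group of a closed aspherical manifold, with a denominator `D` of the following kind
(`Den Γ D`).

* `Γ` embeds in `GL_n (K)`, `K` a field of characteristic zero, `d` is a positive common multiple of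
  the orders of the finite subgroups of `GL_n (K)`, and `D = d` if `K` contains a square root of
  `-1`, `D = 2 ^ ⌊n / 2⌋ d` otherwise; or
* `Γ` embeds in `GL_n (ℤ_p)`, the closure of its image has no element of order `p`, and the order of
  its image in `GL_n (ℤ/p)` divides `D p^b`; for instance `D = 1` for the subgroups of the kernel of
  `GL_n (ℤ_p) → GL_n (ℤ/p)`, `p` odd; or
* `D = [Γ : U] D'` for a subgroup `U` of finite index with the denominator `D'`.

Assume that for each degree `i` with `0 < i < q / 2` there is a subgroup `N` of finite index,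
residually a finite `p`-group, `p` a prime number, with few homology in the degree `i`: let `a_j` be
the Betti numbers of `N` and `W_j = ∑ (1 - p^{-v})`, the sum over the cyclic summands `ℤ/p^v` of the
`p`-primary torsion subgroup of `H^j(N; ℤ)`; then `D (a_i + W_i + W_{i+1}) < [Γ : N]` or
`D (a_i - a_{i-1} + … ± a_0 + W_{i+1}) < [Γ : N]`. (The first inequality holds for instance if
`D dim H_i(N; F_p) < [Γ : N]`.)

Theorem. `Γ` satisfies the Singer conjecture: its `ℓ²`-Betti numbers vanish in all degrees different
from `q / 2`. If `q = 2 m`, then the `ℓ²`-Betti number in the degree `m` is `(-1)^m χ(Γ)`, in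
particular `(-1)^m χ(Γ) ≥ 0`.

In other words, if the `ℓ²`-Betti number of `Γ` in some degree `i < q / 2` or `i > q / 2` does not
vanish and it is the lowest one, then all the homology groups in the degree `i` (or `q - i`) of the
residually `p`-finite subgroups `N` of finite index, for all `p`, are large,
`D dim H_i(N; F_p) ≥ [Γ : N]`, without exception.

The proof combines the strong Atiyah conjecture for these groups (`D` times an `ℓ²`-Betti number is
an integer, see `Pool.Agent.H320.CF.Asm` and `Pool.Agent.H320.GS.Base`), the bounds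
`[Γ : N] b_i ≤ a_i + W_i + W_{i+1}` of the library and Poincaré duality for the `ℓ²`-Betti numbers.
-/

set_option autoImplicit false

open scoped ENNReal

namespace Pool.Agent.Results.MP_984acc_gt.FiniteCertificates

open Pool.Agent.N496.CV (PD HasL2Betti)
open Pool.Agent.H320.LC (Padic Small cx)
open Pool.Agent.H320.LB (LinearWith)

/-- The groups with a denominator. -/
inductive Den : (Γ : Type) → [Group Γ] → ℕ → Prop
  /-- groups embedded in `GL_n (K)` -/
  | linear (Γ : Type) [Group Γ] (D : ℕ) (h : LinearWith Γ D) : Den Γ D
  /-- groups embedded in `GL_n (ℤ_p)` whose closure has no element of order `p` -/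
  | padic (Γ : Type) [Group Γ] (D : ℕ) (h : Padic Γ D) : Den Γ D
  /-- groups with a subgroup of finite index in the class -/
  | virt (Γ : Type) [Group Γ] (U : Subgroup Γ) (hU : U.index ≠ 0) (D : ℕ) (h : Den U D) :
      Den Γ (U.index * D)

theorem Den.qz {Γ : Type} [Group Γ] {D : ℕ} (h : Den Γ D) : Pool.Agent.H320.LC.QZ Γ D := by
  induction h with
  | linear Γ D h => exact Pool.Agent.H320.LC.qz_of_quant h.quant
  | padic Γ D h => exact Pool.Agent.H320.LC.pad Γ D h
  | virt Γ U hU D _ ih => exact ih.fi U hU

/-- **The Singer conjecture from finitely many finite coverings.** Let `P` exhibit the infinite group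
`Γ` as a Poincaré duality group of dimension `q` and type FL, and let `D` be a denominator of `Γ`. If
for each `i` with `0 < i < q / 2` some subgroup of finite index has small homology in the degree `i`,
then all `ℓ²`-Betti numbers of `Γ` outside the degree `q / 2` are zero, and for `q = 2 m` the
`ℓ²`-Betti number in the degree `m` is `(-1)^m χ(Γ)`. -/
theorem result {Γ : Type} [Group Γ] [Infinite Γ] {q D : ℕ} (P : PD Γ q) (hD : Den Γ D)
    (h : ∀ i, 0 < i → 2 * i < q → Small (cx P.C) D i) :
    (∀ k, 2 * k ≠ q → HasL2Betti Γ k 0) ∧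
    ∀ m, q = 2 * m →
      0 ≤ (-1 : ℝ) ^ m * ∑ i ∈ Finset.range (q + 1), (-1 : ℝ) ^ i * (P.C.r i : ℝ) ∧
      HasL2Betti Γ m (ENNReal.ofReal
        ((-1 : ℝ) ^ m * ∑ i ∈ Finset.range (q + 1), (-1 : ℝ) ^ i * (P.C.r i : ℝ))) := by
  have h1 := Pool.Agent.H320.LC.singer Pool.Agent.H320.LC.lnk P hD.qz h
  refine ⟨fun k hk => ?_, ?_⟩
  · have h2 := Pool.Agent.N496.CV.hasL2Betti Γ k
    rwa [h1 k hk] at h2
  · rintro m rfl
    obtain ⟨h2, h3⟩ := Pool.Agent.H320.LC.eul Pool.Agent.H320.LC.luk Γ m P
      (fun k hk => h1 k (by omega))
    refine ⟨h2, ?_⟩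
    have h4 := Pool.Agent.N496.CV.hasL2Betti Γ m
    rwa [h3] at h4

end Pool.Agent.Results.MP_984acc_gt.FiniteCertificates
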