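import Pool.Agent.H748.Hom.Sing

/-!
# The Singer conjecture for Poincaré duality groups: the signature and the Betti numbers

Let `Γ` be an (orientable) Poincaré duality group of dimension `n = 2 m`, with a finite free
resolution `C` of length `n`. A chain equivalence `C^{n-*} → C` which represents the Poincaré
duality can be symmetrised, and with the usual powers of `i` it becomes a self-adjoint matrix `S`
over `ℂ[Γ]` with `b S + S b* = 0`, where `b` is the matrix of the differential. More generally
`(b, S)` can be the symmetrised chain complex of any `2 m`-dimensional Poincaré complex with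
fundamental group `Γ`.

The Singer conjecture Q1 for `Γ` says that the `L²`-Betti numbers `β_i` vanish for `i ≠ m`. The
signature `σ` of `Γ` (on the middle cohomology with trivial coefficients) and the Euler
characteristic `χ` are elementary invariants of `Γ`. If `Γ` is the fundamental group of a closed
aspherical manifold, then Atiyah's `L²`-index theorem shows `|σ| ≤ β_m`, and so Q1 would imply
`|σ| ≤ (-1)^m χ`. For Poincaré duality groups (and Poincaré complexes) there is no index theorem;
even the multiplicativity of the signature in finite coverings fails for general Poincaré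
complexes (Wall).

Theorem. Let `Γ` be in the class `Built` of `MP_c13a79_gt.RaagLimitSignatures` (it contains the
groups whose finitely generated subgroups are residually torsion-free nilpotent or residually
torsion-free virtually abelian, in particular the RFRS groups, and it is closed under marked limits,
local embeddability, extensions `A_Λ ⋊ M` by right-angled Artin groups, ...).

1. `|σ| ≤ β_m`. So if `σ ≠ 0` then the middle `L²`-Betti number does not vanish.
2. Outside the middle: the sum of the `β_i`, `i ≢ m` modulo `2`, is at least `|σ| - (-1)^m χ`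
   (for an infinite Poincaré duality group of dimension `4` this says `2 β_1 ≥ |σ| - χ`).
   Hence Q1 for `Γ` implies `|σ| ≤ (-1)^m χ`, and a group in the class with `(-1)^m χ < |σ|` is a
   counterexample.
3. For all unitary representations `ρ : Γ → U(d)`: the middle Betti number of `Γ` with coefficients
   in `ρ` is at least `d |σ|`, and the sum of the Betti numbers with coefficients in `ρ` in the
   degrees `i ≢ m` modulo `2` is at least `d (|σ| - (-1)^m χ)`. For the permutation representation
   on `Γ / Γ'` these are the Betti numbers of the subgroup `Γ'` of finite index. So the consequence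
   `|σ| ≤ (-1)^m χ` of Q1 is true for `Γ` if a single `ρ` has no cohomology in these degrees.

The von Neumann algebra is not used. The `L²`-Betti numbers are defined by Lück's formula
`β_i = lim_k tr_Γ (1 - C⁻² Δ_i)^k` for any bound `C` of the norm of `b + b*`. Proof of 1: for small
`t > 0` the operator `A_t = b + b* + t S` on `ℓ²(Γ)^N` has a spectral gap which is linear in `t`,
and the same `L²`-signature, which is `σ` by the theorem on the class `Built`. For suitable
continuous functions `φ` (a cut-off of the indicator function of `(0, ∞)`) and `χ₀` (even, with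
small support and `χ₀(0) = 1`) of `D = b + b*` the form `⟨K v, A_t K v⟩`,
`K = φ(D) + χ₀(D) p_{<m}`, is almost non-negative, so that the trace of `K²` is at most the trace of
the positive spectral projection of `A_t` (`Hom.TrS.comparison`, a comparison of traces in
C*-algebras which uses only resolvents).
-/

set_option autoImplicit false

namespace Pool.Agent.Results.MP_984acc_gt.SignatureBound

open Pool.Agent.H748.Sig Pool.Agent.H748.Art Pool.Agent.H748.Hom Matrix Polynomial Filter

/-- the class of groups -/
inductive Built : (G : Type) → [Group G] → Prop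
  /-- the `L²`-signatures over `G` are already known to be the signatures -/
  | start (G : Type) [Group G]
      (h : ∀ (n : ℕ) (b S : Matrix (Fin n) (Fin n) (MonoidAlgebra ℂ G)), IsPoincare b S →
        L2SignatureIs b S (augSignature b S)) : Built G
  /-- finitely generated subgroups are residually torsion-free (nilpotent or virtually abelian) -/
  | detected (G : Type) [Group G]
      (h : ∀ H : Subgroup G, H.FG → ∀ g : H, g ≠ 1 →
        ∃ (Q : Type) (_ : Group Q) (f : H →* Q), (TFVA Q ∨ TFN Q) ∧ f g ≠ 1) : Built G
  /-- `G` is locally embeddable into members of the class -/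
  | limit (G : Type) [Group G] (H : Finset G → Type) [∀ F, Group (H F)] (f : ∀ F, G → H F)
      (hH : ∀ F, Built (H F)) (hinj : ∀ F, Set.InjOn (f F) F)
      (hmul : ∀ F, ∀ x ∈ F, ∀ y ∈ F, f F (x * y) = f F x * f F y) : Built G
  /-- semidirect products of a right-angled Artin group and a member acting on the graph -/
  | raag (M V : Type) [Group M] [MulAction M V] (Λ : SimpleGraph V)
      (h : ∀ (m : M) (s t : V), Λ.Adj s t → Λ.Adj (m • s) (m • t)) (hM : Built M) :
      Built (PresentedGroup (relC Λ) ⋊[pgAct (relC Λ) (relC_inv h)] M)
  /-- the subgroups `N⟨g⟩` for a normal subgroup `N` of finite index are members -/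
  | finite (G : Type) [Group G] (N : Subgroup G) [N.Normal] [N.FiniteIndex]
      (h : ∀ g : G, Built (N ⊔ Subgroup.zpowers g : Subgroup G)) : Built G
  /-- the preimage of `mℤ` under a homomorphism to `ℤ` is a member -/
  | cyclic (G : Type) [Group G] (φ : G →* Multiplicative ℤ) (m : ℕ) (hm : 0 < m)
      (h : Built ((Subgroup.zpowers (Multiplicative.ofAdd (m : ℤ))).comap φ)) : Built G

theorem Built.l2s {G : Type} [Group G] (hG : Built G) : L2S G := by
  induction hG with
  | start G h => exact L2S.of_fin h
  | detected G h => exact L2S.of_local h
  | limit G H f hH hinj hmul ih =>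
    exact L2S.limit fun F => ⟨H F, inferInstance, f F, ih F, hinj F, hmul F⟩
  | raag M V Λ h hM ih => exact L2S.raag h ih
  | finite G N h ih => exact L2S.of_cyclic N ih
  | cyclic G φ m hm h ih =>
    refine L2S.of_dvd φ hm ?_
    rw [dvd_eq]
    exact ih

/-- Let `(b, S)` be a graded symmetric Poincaré complex of dimension `2 m` over `ℂ[G]`, `G` in the
class `Built` (`b` lowers the degree by `1`, `S` maps the dual of degree `i` to degree `2 m - i`).
The `L²`-Betti numbers `β i` exist (and are unique); `χ = ∑ j, (-1) ^ deg j`. -/
theorem result {G : Type} [Group G] (hG : Built G) {n : ℕ}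
    (b S : Matrix (Fin n) (Fin n) (MonoidAlgebra ℂ G)) (h : IsPoincare b S) (deg : Fin n → ℕ)
    (m : ℕ) (hdeg : ∀ j, deg j ≤ 2 * m) (hb : ∀ i j, b i j ≠ 0 → deg j = deg i + 1)
    (hS : ∀ i j, S i j ≠ 0 → deg i + deg j = 2 * m) :
    (∃! β : ℕ → ℝ, ∀ i, IsL2Betti b deg i (β i)) ∧
    (∀ β : ℕ → ℝ, (∀ i, IsL2Betti b deg i (β i)) →
      (∀ i, 0 ≤ β i) ∧
      ∑ i ∈ Finset.range (2 * m + 1), (-1) ^ i * β i = ∑ j, (-1) ^ deg j ∧
      |(augSignature b S : ℝ)| ≤ β m ∧
      |(augSignature b S : ℝ)| - (-1) ^ m * ∑ j, (-1) ^ deg j ≤
        ∑ i ∈ (Finset.range (2 * m + 1)).filter (fun i => i % 2 ≠ m % 2), β i ∧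
      ((∀ i, i ≠ m → β i = 0) →
        |(augSignature b S : ℝ)| ≤ (-1) ^ m * ∑ j, (-1) ^ deg j)) ∧
    (∀ (d : ℕ) (ρ : G →* unitaryGroup (Fin d) ℂ),
      d * |augSignature b S| ≤ cohDim (fun g => (ρ g).val) b deg m ∧
      d * (|augSignature b S| - (-1) ^ m * ∑ j, (-1) ^ deg j) ≤
        ∑ i ∈ (Finset.range (2 * m + 1)).filter (fun i => i % 2 ≠ m % 2),
          cohDim (fun g => (ρ g).val) b deg i) :=
  hG.l2s.singer h hdeg hb hS

end Pool.Agent.Results.MP_984acc_gt.SignatureBound
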